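import Mathlib

/-!
Lower Ramsey numbers: definitions.
-/

set_option autoImplicit false

namespace Pool.Agent.LowerRamsey

/-- The independent domination number `i(G)`: the smallest cardinality of a maximal independent
set of `G`. -/
noncomputable def indepDomNumber {V : Type*} (G : SimpleGraph V) : ℕ :=
  sInf {k : ℕ | ∃ S : Set V, Maximal G.IsIndepSet S ∧ S.ncard = k}

/-- `μ(G)`: the smallest cardinality of a maximal clique of `G`. -/
noncomputable def minMaxClique {V : Type*} (G : SimpleGraph V) : ℕ :=
  sInf {k : ℕ | ∃ S : Set V, Maximal G.IsClique S ∧ S.ncard = k}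

/-- The orders `n` such that every graph `G` of order `n` satisfies `i(G) ≤ ℓ` or `μ(G) ≤ m`. -/
def goodOrders (l m : ℕ) : Set ℕ :=
  {n : ℕ | ∀ G : SimpleGraph (Fin n), indepDomNumber G ≤ l ∨ minMaxClique G ≤ m}

/-- The lower Ramsey number `s(ℓ,m)`: the largest integer `n` such that every graph `G` of
order `n` satisfies `i(G) ≤ ℓ` or `μ(G) ≤ m`. -/
noncomputable def lowerRamsey (l m : ℕ) : ℕ := sSup (goodOrders l m)

end Pool.Agent.LowerRamsey
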