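import Pool.Agent.Lib.MP_a5fab4_co.LowerRamsey

/-!
Lower Ramsey numbers: the lower bound, by maximising a product of vertex weights.
-/

set_option autoImplicit false

open Filter Topology

namespace Pool.Agent.LowerRamsey

/-- If `∏ (1 + t c_i) ≤ 1` for all `t ∈ [0,1]` then `∑ c_i ≤ 0`. -/
lemma sum_nonpos_of_prod_le {ι : Type*} [Fintype ι] (c : ι → ℝ)
    (h : ∀ t : ℝ, 0 ≤ t → t ≤ 1 → ∏ i, (1 + t * c i) ≤ 1) : ∑ i, c i ≤ 0 := by
  classical
  by_contra hcon
  push Not at hcon
  have hd : HasDerivAt (fun t : ℝ => ∏ i, (1 + t * c i)) (∑ i, c i) 0 := by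
    have h1 : ∀ i ∈ (Finset.univ : Finset ι), HasDerivAt (fun t : ℝ => 1 + t * c i) (c i) 0 := by
      intro i _
      simpa using ((hasDerivAt_id (0 : ℝ)).mul_const (c i)).const_add 1
    have h2 := HasDerivAt.fun_finsetProd h1
    simpa using h2
  have hs := hasDerivAt_iff_tendsto_slope.1 hd
  have hev : ∀ᶠ t in 𝓝[≠] (0 : ℝ), 0 < slope (fun t : ℝ => ∏ i, (1 + t * c i)) 0 t :=
    hs.eventually (lt_mem_nhds hcon)
  have hev' : ∀ᶠ t in 𝓝[>] (0 : ℝ), 0 < slope (fun t : ℝ => ∏ i, (1 + t * c i)) 0 t :=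
    hev.filter_mono (nhdsWithin_mono _ fun x hx => ne_of_gt hx)
  have hev2 : ∀ᶠ t in 𝓝[>] (0 : ℝ), t ∈ Set.Ioo (0 : ℝ) 1 := Ioo_mem_nhdsGT zero_lt_one
  obtain ⟨t, ht, ht0, ht1⟩ := (hev'.and hev2).exists
  have h3 := h t ht0.le ht1.le
  rw [slope_def_field] at ht
  have h4 : (∏ i, (1 + t * c i) - ∏ i, (1 + (0 : ℝ) * c i)) / (t - 0) ≤ 0 := by
    apply div_nonpos_of_nonpos_of_nonneg
    · simpa using h3
    · linarith
  linarith

/-- Weights on the vertices, of total at most one on every clique, whose inverses have total at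
most the number of vertices on every independent set. -/
lemma exists_weights {V : Type*} [Fintype V] [Nonempty V] (G : SimpleGraph V) :
    ∃ a : V → ℝ, (∀ v, 0 < a v) ∧
      (∀ C : Finset V, G.IsClique (C : Set V) → ∑ v ∈ C, a v ≤ 1) ∧
      ∀ I : Finset V, G.IsIndepSet (I : Set V) → ∑ v ∈ I, (a v)⁻¹ ≤ Fintype.card V := by
  classical
  let A : Set (V → ℝ) := {a | (∀ v, 0 ≤ a v) ∧
    ∀ C : Finset V, G.IsClique (C : Set V) → ∑ v ∈ C, a v ≤ 1}
  have hclosed : IsClosed A := by
    have : A = (⋂ v, {a : V → ℝ | 0 ≤ a v}) ∩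
        ⋂ C : Finset V, ⋂ _ : G.IsClique (C : Set V), {a : V → ℝ | ∑ v ∈ C, a v ≤ 1} := by
      ext a
      simp [A]
    rw [this]
    refine IsClosed.inter (isClosed_iInter fun v => ?_) (isClosed_iInter fun C =>
      isClosed_iInter fun _ => ?_)
    · exact isClosed_le continuous_const (continuous_apply v)
    · exact isClosed_le (continuous_finsetSum _ fun v _ => continuous_apply v) continuous_const
  have hsub : A ⊆ Set.Icc (0 : V → ℝ) 1 := by
    rintro a ⟨h0, h1⟩
    refine ⟨fun v => h0 v, fun v => ?_⟩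
    have := h1 {v} (by simp [SimpleGraph.IsClique])
    simpa using this
  have hcomp : IsCompact A := isCompact_Icc.of_isClosed_subset hclosed hsub
  have hN : (0 : ℝ) < Fintype.card V := by exact_mod_cast Fintype.card_pos
  have hconst : (fun _ : V => ((Fintype.card V : ℝ))⁻¹) ∈ A := by
    refine ⟨fun _ => by positivity, fun C _ => ?_⟩
    rw [Finset.sum_const, nsmul_eq_mul, ← div_eq_mul_inv, div_le_one hN]
    exact_mod_cast Finset.card_le_univ C
  obtain ⟨a, haA, hmax⟩ := hcomp.exists_isMaxOn ⟨_, hconst⟩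
    (f := fun a : V → ℝ => ∏ v, a v) (by fun_prop)
  have hprod : 0 < ∏ v, a v := by
    refine lt_of_lt_of_le ?_ (hmax hconst)
    exact Finset.prod_pos fun _ _ => by positivity
  have hpos : ∀ v, 0 < a v := by
    intro v
    refine lt_of_le_of_ne (haA.1 v) fun h => ?_
    rw [Finset.prod_eq_zero (Finset.mem_univ v) h.symm] at hprod
    exact lt_irrefl _ hprod
  refine ⟨a, hpos, haA.2, fun I hI => ?_⟩
  have key : ∑ v, ((if v ∈ I then (a v)⁻¹ else 0) - 1) ≤ 0 := by
    apply sum_nonpos_of_prod_le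
    intro t ht0 ht1
    have hmem : (fun v => (1 - t) * a v + t * (if v ∈ I then 1 else 0)) ∈ A := by
      refine ⟨fun v => ?_, fun C hC => ?_⟩
      · have := (hpos v).le
        have h1 : (0 : ℝ) ≤ 1 - t := by linarith
        have h2 : (0 : ℝ) ≤ if v ∈ I then (1 : ℝ) else 0 := by split_ifs <;> norm_num
        positivity
      · rw [Finset.sum_add_distrib, ← Finset.mul_sum, ← Finset.mul_sum]
        have h1 := haA.2 C hC
        have h2 : ∑ v ∈ C, (if v ∈ I then (1 : ℝ) else 0) ≤ 1 := by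
          rw [Finset.sum_ite_mem, Finset.sum_const, nsmul_eq_mul, mul_one]
          have : (C ∩ I).card ≤ 1 := by
            rw [Finset.card_le_one]
            intro x hx y hy
            by_contra hne
            simp only [Finset.mem_inter] at hx hy
            exact hI (by exact_mod_cast hx.2) (by exact_mod_cast hy.2) hne
              (hC (by exact_mod_cast hx.1) (by exact_mod_cast hy.1) hne)
          exact_mod_cast this
        have h3 : (1 - t) * ∑ v ∈ C, a v ≤ (1 - t) * 1 :=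
          mul_le_mul_of_nonneg_left h1 (by linarith)
        have h4 : t * ∑ v ∈ C, (if v ∈ I then (1 : ℝ) else 0) ≤ t * 1 :=
          mul_le_mul_of_nonneg_left h2 ht0
        linarith
    have h5 : ∏ v, ((1 - t) * a v + t * (if v ∈ I then 1 else 0)) ≤ ∏ v, a v := hmax hmem
    have h6 : ∏ v, ((1 - t) * a v + t * (if v ∈ I then 1 else 0)) =
        (∏ v, (1 + t * ((if v ∈ I then (a v)⁻¹ else 0) - 1))) * ∏ v, a v := by
      rw [← Finset.prod_mul_distrib]
      refine Finset.prod_congr rfl fun v _ => ?_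
      have := (hpos v).ne'
      split_ifs
      · field_simp
        ring
      · ring
    rw [h6] at h5
    exact le_of_mul_le_mul_right (by rwa [one_mul]) hprod
  rw [Finset.sum_sub_distrib, Finset.sum_ite_mem, Finset.univ_inter] at key
  simp only [Finset.sum_const, Finset.card_univ, nsmul_eq_mul, mul_one] at key
  linarith

/-- A set of more than `k` members, one of them `v`: the sum of a function `≥ x` at `v` and `≥ y`
everywhere. -/
lemma sum_ge {V : Type*} [DecidableEq V] (s : Finset V) (f : V → ℝ) (v : V) (hv : v ∈ s) (k : ℕ)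
    (hk : k < s.card) (y : ℝ) (hy0 : 0 ≤ y) (hy : ∀ u ∈ s, y ≤ f u) :
    f v + k * y ≤ ∑ u ∈ s, f u := by
  rw [← Finset.add_sum_erase s f hv]
  have h1 : ((s.erase v).card : ℝ) * y ≤ ∑ u ∈ s.erase v, f u := by
    rw [← nsmul_eq_mul]
    exact Finset.card_nsmul_le_sum _ _ _ fun u hu => hy u (Finset.mem_of_mem_erase hu)
  have h2 : (k : ℝ) ≤ ((s.erase v).card : ℝ) := by
    rw [Finset.card_erase_of_mem hv]
    exact_mod_cast (by omega : k ≤ s.card - 1)
  have h3 := mul_le_mul_of_nonneg_right h2 hy0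
  linarith

lemma exists_big {n : ℕ} {P : Set (Fin n) → Prop} {k : ℕ}
    (h : k < sInf {j : ℕ | ∃ S : Set (Fin n), Maximal P S ∧ S.ncard = j}) (v : Fin n)
    (hv : P {v}) : ∃ s : Finset (Fin n), v ∈ s ∧ P (s : Set (Fin n)) ∧ k < s.card := by
  classical
  obtain ⟨S, hle, hS⟩ := (Set.toFinite {S : Set (Fin n) | P S}).exists_le_maximal hv
  refine ⟨S.toFinset, ?_, by simpa using hS.prop, ?_⟩
  · simpa using hle (Set.mem_singleton v)
  · have h1 : sInf {j : ℕ | ∃ S : Set (Fin n), Maximal P S ∧ S.ncard = j} ≤ S.ncard :=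
      Nat.sInf_le ⟨S, hS, rfl⟩
    rw [Set.ncard_eq_toFinset_card'] at h1
    omega

/-- If the order `n` is not good then `n ≥ ℓ + m + k` for some `k` with `k² ≥ 4 ℓ m`. -/
theorem exists_of_not_mem_goodOrders {l m n : ℕ} (hn : n ∉ goodOrders l m) :
    ∃ k : ℕ, 4 * (l * m) ≤ k * k ∧ l + m + k ≤ n := by
  classical
  have h0 : ∃ G : SimpleGraph (Fin n), l < indepDomNumber G ∧ m < minMaxClique G := by
    by_contra hcon
    push Not at hcon
    apply hn
    intro G
    rcases Nat.lt_or_ge l (indepDomNumber G) with h | h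
    · exact Or.inr (hcon G h)
    · exact Or.inl h
  obtain ⟨G, hG1, hG2⟩ := h0
  have hn0 : 0 < n := by
    rcases Nat.eq_zero_or_pos n with rfl | h
    · exact absurd (zero_mem_goodOrders l m) hn
    · exact h
  have : Nonempty (Fin n) := ⟨⟨0, hn0⟩⟩
  obtain ⟨a, hpos, hcl, hin⟩ := exists_weights G
  obtain ⟨v, -, hv⟩ := Finset.exists_max_image Finset.univ a Finset.univ_nonempty
  obtain ⟨w, -, hw⟩ := Finset.exists_min_image Finset.univ a Finset.univ_nonempty
  obtain ⟨C, hvC, hC, hCm⟩ := exists_big hG2 v (by simp [SimpleGraph.IsClique])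
  obtain ⟨I, hwI, hI, hIl⟩ := exists_big hG1 w (by simp [SimpleGraph.IsIndepSet])
  have h1 := (sum_ge C a v hvC m hCm (a w) (hpos w).le fun u _ => hw u (Finset.mem_univ u)).trans
    (hcl C hC)
  have h2 := (sum_ge I (fun u => (a u)⁻¹) w hwI l hIl (a v)⁻¹ (inv_pos.2 (hpos v)).le
    fun u _ => inv_anti₀ (hpos u) (hv u (Finset.mem_univ u))).trans (hin I hI)
  rw [Fintype.card_fin] at h2
  have hv0 := hpos v
  have hw0 := hpos w
  set R := a v
  set r := a w
  have hx : 0 < R / r := div_pos hv0 hw0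
  set x := R / r with hxdef
  have h3 : x + (l : ℝ) * m / x ≤ n - l - m := by
    have h4 : (R + m * r) * (r⁻¹ + l * R⁻¹) ≤ 1 * n :=
      mul_le_mul h1 h2 (by positivity) zero_le_one
    have h5 : (R + m * r) * (r⁻¹ + l * R⁻¹) = x + l + m + (l : ℝ) * m / x := by
      rw [hxdef]
      field_simp
      ring
    rw [h5] at h4
    linarith
  have h6 : 4 * ((l : ℝ) * m) ≤ (x + (l : ℝ) * m / x) ^ 2 := by
    have h7 : (x + (l : ℝ) * m / x) ^ 2 = (x - (l : ℝ) * m / x) ^ 2 + 4 * ((l : ℝ) * m) := by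
      field_simp
      ring
    rw [h7]
    have := sq_nonneg (x - (l : ℝ) * m / x)
    linarith
  have h8 : 0 < x + (l : ℝ) * m / x := by positivity
  have h9 : l + m ≤ n := by
    have : (l : ℝ) + m ≤ n := by linarith
    exact_mod_cast this
  refine ⟨n - (l + m), ?_, by omega⟩
  have h10 : ((n - (l + m) : ℕ) : ℝ) = n - l - m := by
    rw [Nat.cast_sub h9]
    push_cast
    ring
  have h11 : 4 * ((l : ℝ) * m) ≤ ((n - (l + m) : ℕ) : ℝ) * ((n - (l + m) : ℕ) : ℝ) := by
    rw [h10]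
    calc 4 * ((l : ℝ) * m) ≤ (x + (l : ℝ) * m / x) ^ 2 := h6
      _ = (x + (l : ℝ) * m / x) * (x + (l : ℝ) * m / x) := sq _
      _ ≤ (n - l - m) * (n - l - m) := mul_le_mul h3 h3 h8.le (h8.le.trans h3)
  exact_mod_cast h11

end Pool.Agent.LowerRamsey
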