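import Pool.Agent.Lib.MP_a5fab4_co.Defs

/-!
Lower Ramsey numbers: the split graph construction.
-/

set_option autoImplicit false

namespace Pool.Agent.LowerRamsey

/-- In a finite type every clique extends to a maximal one (so the set defining `μ` is nonempty). -/
lemma exists_maximal {V : Type*} [Finite V] (P : Set V → Prop) (h : P ∅) :
    ∃ S : Set V, Maximal P S := by
  obtain ⟨S, -, hS⟩ := (Set.toFinite {S : Set V | P S}).exists_le_maximal (a := (∅ : Set V)) h
  exact ⟨S, hS⟩

lemma lt_indepDomNumber {V : Type*} [Finite V] {G : SimpleGraph V} {k : ℕ}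
    (h : ∀ S : Set V, Maximal G.IsIndepSet S → k < S.ncard) : k < indepDomNumber G := by
  have hne : {k : ℕ | ∃ S : Set V, Maximal G.IsIndepSet S ∧ S.ncard = k}.Nonempty := by
    obtain ⟨S, hS⟩ := exists_maximal (V := V) G.IsIndepSet (by simp [SimpleGraph.IsIndepSet])
    exact ⟨_, S, hS, rfl⟩
  obtain ⟨S, hS, hk⟩ := Nat.sInf_mem hne
  have := h S hS
  unfold indepDomNumber
  omega

lemma lt_minMaxClique {V : Type*} [Finite V] {G : SimpleGraph V} {k : ℕ}
    (h : ∀ S : Set V, Maximal G.IsClique S → k < S.ncard) : k < minMaxClique G := by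
  have hne : {k : ℕ | ∃ S : Set V, Maximal G.IsClique S ∧ S.ncard = k}.Nonempty := by
    obtain ⟨S, hS⟩ := exists_maximal (V := V) G.IsClique (by simp [SimpleGraph.IsClique])
    exact ⟨_, S, hS, rfl⟩
  obtain ⟨S, hS, hk⟩ := Nat.sInf_mem hne
  have := h S hS
  unfold minMaxClique
  omega

/-- The split graph on `Fin n` with clique part `{x | x < a}`, independent part `{x | a ≤ x}`, in
which the independent vertex `a + j` is joined to the residues of
`j * m, j * m + 1, …, j * m + (m - 1)` modulo `a`. -/
def splitGraph (n a m : ℕ) : SimpleGraph (Fin n) where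
  Adj x y := x ≠ y ∧
    ((x.val < a ∧ y.val < a) ∨
     (x.val < a ∧ a ≤ y.val ∧ ∃ t < m, ((y.val - a) * m + t) % a = x.val) ∨
     (y.val < a ∧ a ≤ x.val ∧ ∃ t < m, ((x.val - a) * m + t) % a = y.val))
  symm := ⟨by
    rintro x y ⟨hne, h⟩
    refine ⟨hne.symm, ?_⟩
    rcases h with ⟨h1, h2⟩ | h | h
    · exact Or.inl ⟨h2, h1⟩
    · exact Or.inr (Or.inr h)
    · exact Or.inr (Or.inl h)⟩
  loopless := ⟨fun x h => h.1 rfl⟩

section split

variable {n a m : ℕ}

lemma adj_low {x y : Fin n} (hx : x.val < a) (hy : y.val < a) (h : x ≠ y) :
    (splitGraph n a m).Adj x y := ⟨h, Or.inl ⟨hx, hy⟩⟩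

lemma not_adj_high {x y : Fin n} (hx : a ≤ x.val) (hy : a ≤ y.val) :
    ¬ (splitGraph n a m).Adj x y := by
  rintro ⟨-, h⟩
  rcases h with h | h | h <;> omega

lemma adj_high_low_iff {x y : Fin n} (hx : a ≤ x.val) (hy : y.val < a) :
    (splitGraph n a m).Adj x y ↔ ∃ t < m, ((x.val - a) * m + t) % a = y.val := by
  constructor
  · rintro ⟨-, h⟩
    rcases h with h | h | h
    · omega
    · omega
    · exact h.2.2
  · intro h
    refine ⟨?_, Or.inr (Or.inr ⟨hy, hx, h⟩)⟩
    rintro rfl
    omega

/-- Every vertex of the independent part has at least `m` neighbours (all in the clique part). -/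
lemma le_ncard_neighbors (ha : a ≤ n) (hm : m ≤ a) (hm0 : 0 < m) {x : Fin n} (hx : a ≤ x.val) :
    m ≤ {y : Fin n | (splitGraph n a m).Adj x y}.ncard := by
  have ha0 : 0 < a := lt_of_lt_of_le hm0 hm
  let f : Fin m → Fin n := fun t =>
    ⟨((x.val - a) * m + t.val) % a, lt_of_lt_of_le (Nat.mod_lt _ ha0) ha⟩
  have hf : Function.Injective f := by
    intro s t hst
    have h1 : ((x.val - a) * m + s.val) % a = ((x.val - a) * m + t.val) % a := by
      simpa [f] using congrArg Fin.val hst
    have h2 : s.val % a = t.val % a := by
      have h3 : (x.val - a) * m + s.val ≡ (x.val - a) * m + t.val [MOD a] := h1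
      exact Nat.ModEq.add_left_cancel' _ h3
    rw [Nat.mod_eq_of_lt (lt_of_lt_of_le s.isLt hm), Nat.mod_eq_of_lt (lt_of_lt_of_le t.isLt hm)]
      at h2
    exact Fin.ext h2
  have hsub : Set.range f ⊆ {y : Fin n | (splitGraph n a m).Adj x y} := by
    rintro _ ⟨t, rfl⟩
    have hlow : (f t).val < a := Nat.mod_lt _ ha0
    exact (adj_high_low_iff hx hlow).2 ⟨t.val, t.isLt, rfl⟩
  have hcard : (Set.range f).ncard = m := by
    rw [← Set.image_univ, Set.ncard_image_of_injective _ hf, Set.ncard_univ]
    simp
  calc m = (Set.range f).ncard := hcard.symm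
    _ ≤ _ := Set.ncard_le_ncard hsub (Set.toFinite _)

/-- Every vertex of the clique part has at most `u` neighbours in the independent part. -/
lemma ncard_high_neighbors_le {u : ℕ} (hu : (n - a) * m ≤ a * u) {x : Fin n}
    (hx : x.val < a) :
    {y : Fin n | a ≤ y.val ∧ (splitGraph n a m).Adj x y}.ncard ≤ u := by
  have h1 : (Fin.val '' {y : Fin n | a ≤ y.val ∧ (splitGraph n a m).Adj x y}).ncard =
      {y : Fin n | a ≤ y.val ∧ (splitGraph n a m).Adj x y}.ncard :=
    Set.ncard_image_of_injective _ Fin.val_injective
  rw [← h1]
  have hsub : (Fin.val '' {y : Fin n | a ≤ y.val ∧ (splitGraph n a m).Adj x y}) ⊆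
      ((Finset.range u).image (fun s => a + (x.val + a * s) / m) : Finset ℕ) := by
    rintro _ ⟨y, ⟨hy, hadj⟩, rfl⟩
    obtain ⟨t, ht, hmod⟩ := (adj_high_low_iff hy hx).1 hadj.symm
    simp only [Finset.coe_image, Set.mem_image, Finset.mem_coe, Finset.mem_range]
    refine ⟨((y.val - a) * m + t) / a, ?_, ?_⟩
    · have hlt : (y.val - a) * m + t < a * u := by
        have hya : y.val - a + 1 ≤ n - a := by
          have := y.isLt
          omega
        calc (y.val - a) * m + t < (y.val - a) * m + m := by omega
          _ = (y.val - a + 1) * m := by ring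
          _ ≤ (n - a) * m := Nat.mul_le_mul_right _ hya
          _ ≤ a * u := hu
      exact Nat.div_lt_of_lt_mul hlt
    · have hdiv : x.val + a * (((y.val - a) * m + t) / a) = (y.val - a) * m + t := by
        rw [← hmod]
        exact Nat.mod_add_div _ _
      rw [hdiv]
      have hm0 : 0 < m := by omega
      have : ((y.val - a) * m + t) / m = y.val - a := by
        rw [Nat.mul_comm, Nat.mul_add_div hm0, Nat.div_eq_of_lt ht, Nat.add_zero]
      rw [this]
      omega
  calc _ ≤ ((((Finset.range u).image (fun s => a + (x.val + a * s) / m) : Finset ℕ)) :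
        Set ℕ).ncard := Set.ncard_le_ncard hsub (Finset.finite_toSet _)
    _ = ((Finset.range u).image (fun s => a + (x.val + a * s) / m)).card :=
        Set.ncard_coe_finset _
    _ ≤ (Finset.range u).card := Finset.card_image_le
    _ = u := Finset.card_range u

lemma ncard_high (ha : a ≤ n) : {y : Fin n | a ≤ y.val}.ncard = n - a := by
  have h : {y : Fin n | a ≤ y.val} = Set.range (fun j : Fin (n - a) =>
      (⟨a + j.val, by omega⟩ : Fin n)) := by
    ext y
    simp only [Set.mem_ofPred_eq, Set.mem_range]
    constructor
    · intro hy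
      refine ⟨⟨y.val - a, by omega⟩, ?_⟩
      apply Fin.ext
      simp only
      omega
    · rintro ⟨j, rfl⟩
      simp
  rw [h, ← Set.image_univ, Set.ncard_image_of_injective, Set.ncard_univ]
  · simp
  · intro i j hij
    have := congrArg Fin.val hij
    simp only at this
    exact Fin.ext (by omega)

lemma ncard_low (ha : a ≤ n) : {y : Fin n | y.val < a}.ncard = a := by
  have h : {y : Fin n | y.val < a} = Set.range (fun j : Fin a =>
      (⟨j.val, by omega⟩ : Fin n)) := by
    ext y
    simp only [Set.mem_ofPred_eq, Set.mem_range]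
    constructor
    · intro hy
      exact ⟨⟨y.val, hy⟩, rfl⟩
    · rintro ⟨j, rfl⟩
      simp
  rw [h, ← Set.image_univ, Set.ncard_image_of_injective, Set.ncard_univ]
  · simp
  · intro i j hij
    have := congrArg Fin.val hij
    simp only at this
    exact Fin.ext this

/-- The independent domination number of the split graph is large. -/
lemma split_indep {l u : ℕ} (hn : n = a + (l + u)) (hu0 : 0 < u) (hu : (l + u) * m ≤ a * u) :
    l < indepDomNumber (splitGraph n a m) := by
  apply lt_indepDomNumber
  intro S hS
  have ha : a ≤ n := by omega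
  have hna : n - a = l + u := by omega
  by_cases hx : ∃ x ∈ S, x.val < a
  · obtain ⟨x, hxS, hxa⟩ := hx
    -- every non-neighbour of `x` in the independent part lies in `S`
    have hsub : insert x ({y : Fin n | a ≤ y.val} \
        {y : Fin n | a ≤ y.val ∧ (splitGraph n a m).Adj x y}) ⊆ S := by
      intro y hy
      rcases hy with rfl | ⟨hy1, hy2⟩
      · exact hxS
      · have hy1' : a ≤ y.val := hy1
        have hnadj : ¬ (splitGraph n a m).Adj x y := fun h => hy2 ⟨hy1, h⟩
        have hins : (splitGraph n a m).IsIndepSet (insert y S) := by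
          intro p hp q hq hpq
          rcases hp with rfl | hp
          · rcases hq with rfl | hq
            · exact absurd rfl hpq
            · by_cases hqx : q = x
              · subst hqx
                exact fun h => hnadj h.symm
              · have hqa : a ≤ q.val := by
                  by_contra hcon
                  exact hS.prop hq hxS hqx (adj_low (by omega) hxa hqx)
                exact not_adj_high hy1' hqa
          · rcases hq with rfl | hq
            · by_cases hpx : p = x
              · subst hpx
                exact hnadj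
              · have hpa : a ≤ p.val := by
                  by_contra hcon
                  exact hS.prop hp hxS hpx (adj_low (by omega) hxa hpx)
                exact not_adj_high hpa hy1'
            · exact hS.prop hp hq hpq
        exact hS.le_of_ge hins (Set.subset_insert y S) (Set.mem_insert y S)
    have hdeg := ncard_high_neighbors_le (n := n) (a := a) (m := m) (u := u)
      (by rw [hna]; exact hu) hxa
    have hdiff : (l + u) - u ≤ ({y : Fin n | a ≤ y.val} \
        {y : Fin n | a ≤ y.val ∧ (splitGraph n a m).Adj x y}).ncard := by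
      have h1 := Set.ncard_le_ncard_sdiff_add_ncard {y : Fin n | a ≤ y.val}
        {y : Fin n | a ≤ y.val ∧ (splitGraph n a m).Adj x y} (Set.toFinite _)
      rw [ncard_high ha, hna] at h1
      omega
    have hnot : x ∉ ({y : Fin n | a ≤ y.val} \
        {y : Fin n | a ≤ y.val ∧ (splitGraph n a m).Adj x y}) := by
      rintro ⟨h1, -⟩
      have h1' : a ≤ x.val := h1
      omega
    have hcard := Set.ncard_le_ncard hsub (Set.toFinite _)
    rw [Set.ncard_insert_of_notMem hnot (Set.toFinite _)] at hcard
    omega
  · have hsub : S ⊆ {y : Fin n | a ≤ y.val} := by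
      intro y hy
      by_contra hcon
      exact hx ⟨y, hy, by simpa using hcon⟩
    have hind : (splitGraph n a m).IsIndepSet {y : Fin n | a ≤ y.val} := by
      intro p hp q hq _
      exact not_adj_high hp hq
    have heq : S = {y : Fin n | a ≤ y.val} := Set.Subset.antisymm hsub (hS.le_of_ge hind hsub)
    rw [heq, ncard_high ha]
    omega

/-- The smallest maximal clique of the split graph is large. -/
lemma split_clique {l u : ℕ} (hn : n = a + (l + u)) (hl : 0 < l) (hm0 : 0 < m)
    (hu : (l + u) * m ≤ a * u) :
    m < minMaxClique (splitGraph n a m) := by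
  have ham : m < a := by
    by_contra hcon
    have h1 : a * u ≤ m * u := Nat.mul_le_mul_right _ (by omega)
    have h2 : (l + u) * m = l * m + m * u := by ring
    have h3 : 0 < l * m := Nat.mul_pos hl hm0
    omega
  apply lt_minMaxClique
  intro S hS
  have ha : a ≤ n := by omega
  by_cases hx : ∃ x ∈ S, a ≤ x.val
  · obtain ⟨x, hxS, hxa⟩ := hx
    have hsub : insert x {y : Fin n | (splitGraph n a m).Adj x y} ⊆ S := by
      intro y hy
      rcases hy with rfl | hy
      · exact hxS
      · have hyadj : (splitGraph n a m).Adj x y := hy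
        have hya : y.val < a := by
          by_contra hcon
          exact not_adj_high hxa (by omega) hyadj
        have hins : (splitGraph n a m).IsClique (insert y S) := by
          intro p hp q hq hpq
          rcases hp with rfl | hp
          · rcases hq with rfl | hq
            · exact absurd rfl hpq
            · by_cases hqx : q = x
              · subst hqx
                exact hyadj.symm
              · have hqa : q.val < a := by
                  by_contra hcon
                  exact not_adj_high (by omega) hxa (hS.prop hq hxS hqx)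
                exact adj_low hya hqa hpq
          · rcases hq with rfl | hq
            · by_cases hpx : p = x
              · subst hpx
                exact hyadj
              · have hpa : p.val < a := by
                  by_contra hcon
                  exact not_adj_high (by omega) hxa (hS.prop hp hxS hpx)
                exact adj_low hpa hya hpq
            · exact hS.prop hp hq hpq
        exact hS.le_of_ge hins (Set.subset_insert y S) (Set.mem_insert y S)
    have hdeg := le_ncard_neighbors (n := n) (a := a) (m := m) ha ham.le hm0 hxa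
    have hnot : x ∉ {y : Fin n | (splitGraph n a m).Adj x y} := by
      intro h
      exact (splitGraph n a m).loopless.irrefl x h
    have hcard := Set.ncard_le_ncard hsub (Set.toFinite _)
    rw [Set.ncard_insert_of_notMem hnot (Set.toFinite _)] at hcard
    omega
  · have hsub : S ⊆ {y : Fin n | y.val < a} := by
      intro y hy
      by_contra hcon
      exact hx ⟨y, hy, by simpa using hcon⟩
    have hcl : (splitGraph n a m).IsClique {y : Fin n | y.val < a} := by
      intro p hp q hq hpq
      exact adj_low hp hq hpq
    have heq : S = {y : Fin n | y.val < a} := Set.Subset.antisymm hsub (hS.le_of_ge hcl hsub)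
    rw [heq, ncard_low ha]
    exact ham

end split

/-- If `(ℓ + u) m ≤ a u` then the order `a + (ℓ + u)` is not good. -/
theorem not_mem_goodOrders {l m a u : ℕ} (hl : 0 < l) (hm : 0 < m) (hu0 : 0 < u)
    (hu : (l + u) * m ≤ a * u) : a + (l + u) ∉ goodOrders l m := by
  intro h
  rcases h (splitGraph (a + (l + u)) a m) with h1 | h1
  · exact absurd (split_indep rfl hu0 hu) (by omega)
  · exact absurd (split_clique rfl hl hm hu) (by omega)

/-- With `k = ⌈2 √(ℓ m)⌉`, no order `n ≥ ℓ + m + k` is good. -/
theorem not_mem_goodOrders_of_le {l m k n : ℕ} (hl : 0 < l) (hm : 0 < m)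
    (hk : 4 * (l * m) ≤ k * k) (hn : l + m + k ≤ n) : n ∉ goodOrders l m := by
  have hk2 : 2 ≤ k := by
    by_contra hcon
    have hk1 : k ≤ 1 := by omega
    have h1 : k * k ≤ 1 := by nlinarith
    have h2 : 0 < l * m := Nat.mul_pos hl hm
    omega
  set u : ℕ := k / 2 with hudef
  set v : ℕ := k - u with hvdef
  have hu0 : 0 < u := by omega
  have huv : l * m ≤ u * v := by
    rcases Nat.even_or_odd' k with ⟨c, hc | hc⟩
    · have hu : u = c := by omega
      have hv : v = c := by omega
      rw [hu, hv]
      subst hc
      nlinarith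
    · have hu : u = c := by omega
      have hv : v = c + 1 := by omega
      rw [hu, hv]
      subst hc
      have h3 : 4 * (l * m) ≤ 4 * (c * (c + 1)) + 1 := by nlinarith
      omega
  -- the size of the clique part
  have hsize : l + m + k = (m + v) + (l + u) := by omega
  have hn' : n = (m + v + (n - (l + m + k))) + (l + u) := by omega
  rw [hn']
  apply not_mem_goodOrders hl hm hu0
  have h4 : (l + u) * m = l * m + u * m := by ring
  have h5 : (m + v + (n - (l + m + k))) * u = u * m + u * v + (n - (l + m + k)) * u := by ring
  rw [h4, h5]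
  have h6 : 0 ≤ (n - (l + m + k)) * u := Nat.zero_le _
  omega

lemma zero_mem_goodOrders (l m : ℕ) : 0 ∈ goodOrders l m := by
  intro G
  left
  have : indepDomNumber G ≤ 0 := by
    apply Nat.sInf_le
    refine ⟨∅, ⟨by simp [SimpleGraph.IsIndepSet], ?_⟩, by simp⟩
    intro T _ _ x _
    exact x.elim0
  omega

/-- The lower Ramsey number is a genuine maximum: the set of good orders is nonempty and
bounded. -/
theorem isGreatest_lowerRamsey {l m : ℕ} (hl : 0 < l) (hm : 0 < m) :
    IsGreatest (goodOrders l m) (lowerRamsey l m) := by
  have hbdd : BddAbove (goodOrders l m) := by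
    refine ⟨l + m + 2 * (l * m), ?_⟩
    intro n hn
    by_contra hcon
    refine not_mem_goodOrders_of_le (k := 2 * (l * m)) hl hm ?_ (by omega) hn
    have : 0 < l * m := Nat.mul_pos hl hm
    nlinarith
  exact ⟨Nat.sSup_mem ⟨0, zero_mem_goodOrders l m⟩ hbdd, fun n hn => le_csSup hbdd hn⟩

theorem lowerRamsey_lt {l m k : ℕ} (hl : 0 < l) (hm : 0 < m) (hk : 4 * (l * m) ≤ k * k) :
    lowerRamsey l m < l + m + k := by
  by_contra hcon
  exact not_mem_goodOrders_of_le hl hm hk (by omega) (isGreatest_lowerRamsey hl hm).1

end Pool.Agent.LowerRamsey
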